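import Pool.Agent.H27.GH.Targets

/-!
Module DVE (MP_70ba79_ag): dual vectors.
-/

set_option autoImplicit false

namespace Pool.Agent.H36.GH.DVE

open MvPolynomial Pool.Agent.H27.GH

theorem dve : T_DVE := by
  classical
  intro k _ n q a I hI
  set v : I → (Fin n → k) := fun (i : I) (s : Fin n) => a i.1 s.succ with hv
  obtain ⟨g, hg⟩ := LinearMap.exists_extend hI.repr
  have hgv : ∀ j : I, g (v j) = Finsupp.single j 1 := by
    intro j
    have h1 := LinearMap.congr_fun hg (⟨v j, Submodule.subset_span ⟨j, rfl⟩⟩ : Submodule.span k (Set.range v))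
    have h2 := hI.repr_eq_single j (⟨v j, Submodule.subset_span ⟨j, rfl⟩⟩ : Submodule.span k (Set.range v)) rfl
    rw [← h2, ← h1]
    rfl
  refine ⟨fun i r => if h : i ∈ I then (g (Pi.single r 1)) ⟨i, h⟩ else 0, ?_⟩
  intro i hi j hj
  have h3 : v ⟨j, hj⟩ = ∑ r : Fin n, a j r.succ • (Pi.single r (1 : k) : Fin n → k) := by
    ext s
    simp [hv, Finset.sum_apply, Pi.single_apply]
  have h4 : (g (v ⟨j, hj⟩)) ⟨i, hi⟩ = ∑ r : Fin n, a j r.succ * (g (Pi.single r 1)) ⟨i, hi⟩ := by
    rw [h3, map_sum, Finsupp.finsetSum_apply]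
    refine Finset.sum_congr rfl fun r _ => ?_
    rw [map_smul, Finsupp.smul_apply, smul_eq_mul]
  simp only [dif_pos hi]
  rw [← h4, hgv, Finsupp.single_apply]
  by_cases hij : i = j
  · subst hij
    simp
  · rw [if_neg hij, if_neg]
    intro h
    exact hij (congrArg Subtype.val h).symm

end Pool.Agent.H36.GH.DVE
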