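import Pool.Agent.H27.GH.Targets

/-!
Module EXN (MP_70ba79_ag): comparison of the numbers of unknowns and of equations.
-/

set_option autoImplicit false

namespace Pool.Agent.H36.GH.EXN

open MvPolynomial Pool.Agent.H27.LV Pool.Agent.H27.GH

theorem exn (hEXC : T_EXC) (hCRD : T_CRD) : T_EXN := by
  intro n b1 b2 w q hq
  have h1 := hEXC n b1 b2 w
  have hN1 : Fintype.card (Mon (n + 3) b1) = (n + 2 + b1).choose (n + 2) := hCRD (n + 2) b1
  have hN2 : Fintype.card (Mon (n + 2) b2) = (n + 1 + b2).choose (n + 1) := hCRD (n + 1) b2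
  have hc1 : Fintype.card (Mon (n + 2) b1) = (n + 1 + b1).choose (n + 1) := hCRD (n + 1) b1
  have hc2 : Fintype.card (Mon (n + 1) b2) = (n + b2).choose n := hCRD n b2
  have e1 : (n + 2 + b1) * (n + 1 + b1).choose (n + 1) = (n + 2 + b1).choose (n + 2) * (n + 2) := by
    have := Nat.add_one_mul_choose_eq (n + 1 + b1) (n + 1)
    have e : n + 1 + b1 + 1 = n + 2 + b1 := by ring
    rw [e] at this
    exact this
  have e2 : (n + 1 + b2) * (n + b2).choose n = (n + 1 + b2).choose (n + 1) * (n + 1) := by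
    have := Nat.add_one_mul_choose_eq (n + b2) n
    have e : n + b2 + 1 = n + 1 + b2 := by ring
    rw [e] at this
    exact this
  have p1 : 0 < (n + 1 + b1).choose (n + 1) := Nat.choose_pos (by omega)
  have p2 : 0 < (n + b2).choose n := Nat.choose_pos (by omega)
  rw [hc1, hc2] at h1
  rw [hN1, hN2]
  set B := Fintype.card {p : Mon (n + 3) b1 × Mon (n + 2) b2 // p.1.1 1 + p.2.1 0 < w}
  set c1 := (n + 1 + b1).choose (n + 1)
  set c2 := (n + b2).choose n
  set N1 := (n + 2 + b1).choose (n + 2)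
  set N2 := (n + 1 + b2).choose (n + 1)
  have h2 : (2 * ((n + 2) * (n + 1))) * (q * B) < (2 * ((n + 2) * (n + 1))) * (N1 * N2) := by
    calc (2 * ((n + 2) * (n + 1))) * (q * B) = q * ((n + 2) * (n + 1)) * (2 * B) := by ring
      _ ≤ q * ((n + 2) * (n + 1)) * (w * (w + 1) * (c1 * c2)) := Nat.mul_le_mul_left _ h1
      _ = (q * ((n + 2) * (n + 1)) * (w * (w + 1))) * (c1 * c2) := by ring
      _ < (2 * ((n + 2 + b1) * (n + 1 + b2))) * (c1 * c2) :=
          Nat.mul_lt_mul_of_pos_right hq (Nat.mul_pos p1 p2)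
      _ = 2 * (((n + 2 + b1) * c1) * ((n + 1 + b2) * c2)) := by ring
      _ = 2 * ((N1 * (n + 2)) * (N2 * (n + 1))) := by rw [e1, e2]
      _ = _ := by ring
  exact Nat.lt_of_mul_lt_mul_left h2

end Pool.Agent.H36.GH.EXN
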