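import Pool.Agent.H27.GH.Targets

/-!
Module FIL (MP_70ba79_ag): powers of an ideal and the filtration.
-/

set_option autoImplicit false

namespace Pool.Agent.H36.GH.FIL

open MvPolynomial Pool.Agent.H27.GH

section

variable {R : Type} [CommRing R] {σ : Type} {T : Finset σ} {J : Ideal R}

theorem fil_mul {a b : ℕ} {f g : MvPolynomial σ R} (hf : Fil J T a f) (hg : Fil J T b g) :
    Fil J T (a + b) (f * g) := by
  classical
  intro κ
  rw [coeff_mul]
  refine Ideal.sum_mem _ fun x hx => ?_
  have hx' := Finset.HasAntidiagonal.mem_antidiagonal.1 hx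
  have h1 := Ideal.mul_mem_mul (hf x.1) (hg x.2)
  rw [← pow_add] at h1
  refine Ideal.pow_le_pow_right ?_ h1
  have h2 : ∑ y ∈ T, κ y = ∑ y ∈ T, x.1 y + ∑ y ∈ T, x.2 y := by
    rw [← Finset.sum_add_distrib]
    refine Finset.sum_congr rfl fun y _ => ?_
    rw [← hx']
    rfl
  omega

theorem fil_zero (w : ℕ) : Fil J T w (0 : MvPolynomial σ R) := by
  intro κ
  rw [coeff_zero]
  exact Ideal.zero_mem _

theorem fil_add {w : ℕ} {f g : MvPolynomial σ R} (hf : Fil J T w f) (hg : Fil J T w g) :
    Fil J T w (f + g) := by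
  intro κ
  rw [coeff_add]
  exact Ideal.add_mem _ (hf κ) (hg κ)

theorem fil_all (f : MvPolynomial σ R) : Fil J T 0 f := by
  intro κ
  simp

/-- the filtration as ideals -/
def FI (J : Ideal R) (T : Finset σ) (w : ℕ) : Ideal (MvPolynomial σ R) where
  carrier := {Q | Fil J T w Q}
  add_mem' := fun hf hg => fil_add hf hg
  zero_mem' := fil_zero w
  smul_mem' := fun c Q hQ => by
    have h := fil_mul (fil_all (J := J) (T := T) c) hQ
    rw [Nat.zero_add] at h
    exact h

end

theorem fil : T_FIL := by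
  intro R _ σ T J f g hf hg w
  have h1 : Ideal.span {f, g} ≤ FI J T 1 := by
    rw [Ideal.span_le]
    rintro x (rfl | rfl)
    · exact hf
    · exact hg
  have h2 : Ideal.span {f, g} ^ w ≤ FI J T w := by
    induction w with
    | zero => intro Q _; exact fil_all Q
    | succ w ih =>
      rw [pow_succ, Ideal.mul_le]
      intro x hx y hy
      exact fil_mul (ih hx) (h1 hy)
  intro Q hQ
  exact h2 hQ

end Pool.Agent.H36.GH.FIL
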