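import Pool.Agent.H27.GH.Targets

/-!
Module GPO (MP_70ba79_ag): general hyperplanes are in general position.
-/

set_option autoImplicit false

namespace Pool.Agent.H36.GH.GPO

open MvPolynomial Pool.Agent.H27.GH

section

variable {k : Type} [Field k] {n q : ℕ}

theorem gen_det {m : ℕ} (e : Fin m → Fin q) (he : Function.Injective e) (c : Fin m → Fin (n + 1))
    (hc : Function.Injective c) :
    (Matrix.of fun u b => (X (e u, c b) : MvPolynomial (Fin q × Fin (n + 1)) k)).det ≠ 0 := by
  have h1 := Matrix.det_mvPolynomialX_ne_zero (Fin m) k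
  have hinj : Function.Injective (fun ub : Fin m × Fin m => (e ub.1, c ub.2)) := by
    rintro ⟨u, b⟩ ⟨u', b'⟩ h
    simp only [Prod.mk.injEq] at h
    rw [he h.1, hc h.2]
  have h2 : (rename (fun ub : Fin m × Fin m => (e ub.1, c ub.2)))
      (Matrix.mvPolynomialX (Fin m) (Fin m) k).det =
      (Matrix.of fun u b => (X (e u, c b) : MvPolynomial (Fin q × Fin (n + 1)) k)).det := by
    rw [AlgHom.map_det]
    congr 1
    ext u b : 2
    simp [Matrix.mvPolynomialX, rename_X]
  rw [← h2]
  intro h
  exact h1 (rename_injective _ hinj (by rw [h, map_zero]))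

theorem eval_det {m : ℕ} (e : Fin m → Fin q) (c : Fin m → Fin (n + 1))
    (a : Fin q → Fin (n + 1) → k) :
    eval (fun is : Fin q × Fin (n + 1) => a is.1 is.2)
      (Matrix.of fun u b => (X (e u, c b) : MvPolynomial (Fin q × Fin (n + 1)) k)).det =
    (Matrix.of fun u b => a (e u) (c b)).det := by
  rw [RingHom.map_det]
  congr 1
  ext u b : 2
  simp

theorem li_of_det {S : Type} (I : Finset (Fin q)) (v : I → S → k) (c : Fin I.card → S)
    (h : (Matrix.of fun u b => v (I.orderIsoOfFin rfl u) (c b)).det ≠ 0) :
    LinearIndependent k v := by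
  have h1 := Matrix.linearIndependent_rows_of_det_ne_zero h
  have h2 : LinearIndependent k (v ∘ (I.orderIsoOfFin rfl).toEquiv) := by
    refine LinearIndependent.of_comp (LinearMap.funLeft k k c) ?_
    exact h1
  exact (linearIndependent_equiv (I.orderIsoOfFin rfl).toEquiv).1 h2

end

theorem gpo : T_GPO := by
  classical
  intro k _ n q
  let D1 : Finset (Fin q) → MvPolynomial (Fin q × Fin (n + 1)) k := fun I =>
    if h : I.card ≤ n then
      (Matrix.of fun (u : Fin I.card) (b : Fin I.card) =>
        (X ((I.orderIsoOfFin rfl u).1, (Fin.castLE h b).succ) :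
          MvPolynomial (Fin q × Fin (n + 1)) k)).det else 1
  let D2 : Finset (Fin q) → MvPolynomial (Fin q × Fin (n + 1)) k := fun I =>
    if h : I.card = n + 1 then
      (Matrix.of fun (u : Fin I.card) (b : Fin I.card) =>
        (X ((I.orderIsoOfFin rfl u).1, Fin.cast h b) :
          MvPolynomial (Fin q × Fin (n + 1)) k)).det else 1
  have hinj : ∀ I : Finset (Fin q), Function.Injective
      fun u : Fin I.card => (I.orderIsoOfFin rfl u).1 :=
    fun I => Subtype.val_injective.comp (I.orderIsoOfFin rfl).injective
  refine ⟨∏ I : Finset (Fin q), (D1 I * D2 I), ?_, ?_⟩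
  · rw [Finset.prod_ne_zero_iff]
    intro I _
    refine mul_ne_zero ?_ ?_
    · simp only [D1]
      split_ifs with h
      · exact gen_det _ (hinj I) _ ((Fin.succ_injective n).comp (Fin.castLE_injective h))
      · exact one_ne_zero
    · simp only [D2]
      split_ifs with h
      · exact gen_det _ (hinj I) _ (Fin.cast_injective h)
      · exact one_ne_zero
  · intro a ha
    rw [map_prod, Finset.prod_ne_zero_iff] at ha
    refine ⟨fun I hI => ?_, fun I hI => ?_⟩
    · have h1 := ha I (Finset.mem_univ I)
      rw [map_mul] at h1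
      have h2 := left_ne_zero_of_mul h1
      simp only [D1] at h2
      rw [dif_pos hI] at h2
      refine li_of_det I _ (Fin.castLE hI) ?_
      exact (eval_det (fun u : Fin I.card => (I.orderIsoOfFin rfl u).1)
        (fun b => (Fin.castLE hI b).succ) a) ▸ h2
    · have h1 := ha I (Finset.mem_univ I)
      rw [map_mul] at h1
      have h2 := right_ne_zero_of_mul h1
      simp only [D2] at h2
      rw [dif_pos hI] at h2
      refine li_of_det I _ (Fin.cast hI) ?_
      exact (eval_det (fun u : Fin I.card => (I.orderIsoOfFin rfl u).1)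
        (fun b => Fin.cast hI b) a) ▸ h2

end Pool.Agent.H36.GH.GPO
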