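import Pool.Agent.H27.GH.Targets

/-!
Module NVB (MP_70ba79_ag): moving the hyperplanes back.
-/

set_option autoImplicit false

namespace Pool.Agent.H36.GH.NVB

open MvPolynomial Pool.Agent.H27.LV Pool.Agent.H27.GH

section

variable {k : Type} [Field k] {K : Type} [Field K] [Algebra k K] {n q : ℕ}
  (a0 : Fin q → Fin (n + 1) → k) (j : Fin n) (z y : Fin n → K)

theorem su_C (r : MvPolynomial (Vr n) k) :
    SU a0 j z y (C r) = C (aeval (Sum.elim (xx z) y) r) := by
  unfold SU
  rw [eval₂Hom_C]
  rfl

theorem su_tv (s : Fin n) : SU a0 j z y (tv s) = X (Sum.inl s) := by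
  unfold SU tv
  rw [eval₂Hom_X']
  rfl

theorem su_vv (s : Fin n) :
    SU a0 j z y (vv' j s) = if s = j then 0 else X (Sum.inr s) := by
  unfold SU vv'
  split_ifs
  · rw [map_zero]
  · rw [eval₂Hom_X']
    rfl

theorem su_bb0 (i : Fin q) : SU a0 j z y (bb a0 i 0) = C (algebraMap k K (a0 i 0)) +
    ∑ s : Fin n, C (algebraMap k K (a0 i s.succ)) * X (Sum.inl s) := by
  unfold bb
  rw [map_add, su_C, aeval_C]
  congr 1
  unfold SU
  rw [eval₂Hom_X']
  rfl

theorem su_bbs (i : Fin q) (s : Fin n) : SU a0 j z y (bb a0 i s.succ) =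
    C (algebraMap k K (a0 i s.succ)) + if s = j then
      ∑ r : Fin n, C (algebraMap k K (a0 i r.succ)) * (if r = j then 0 else X (Sum.inr r)) else 0 := by
  unfold bb
  rw [map_add, su_C, aeval_C]
  congr 1
  unfold SU
  rw [eval₂Hom_X']
  rfl

theorem su_AA (i : Fin q) : SU a0 j z y (AA a0 j i) =
    ∑ r : Fin n, C (algebraMap k K (a0 i r.succ)) * (if r = j then 0 else X (Sum.inr r)) := by
  unfold AA
  rw [map_sum]
  refine Finset.sum_congr rfl fun r _ => ?_
  rw [map_mul, su_bbs, su_vv]
  split_ifs with h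
  · simp
  · rw [add_zero]

theorem su_aT (i : Fin q) (s : Fin (n + 1)) :
    SU a0 j z y (aT a0 j i s) = C (algebraMap k K (a0 i s)) := by
  refine Fin.cases ?_ (fun s => ?_) s
  · simp only [aT, Fin.cons_zero]
    rw [map_add, map_sub, map_sum, su_bb0, map_mul, su_AA, su_tv]
    have h1 : ∀ s : Fin n, SU a0 j z y (bb a0 i s.succ * tv s) =
        C (algebraMap k K (a0 i s.succ)) * X (Sum.inl s) + (if s = j then
          (∑ r : Fin n, C (algebraMap k K (a0 i r.succ)) * (if r = j then 0 else X (Sum.inr r))) *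
            X (Sum.inl s) else 0) := by
      intro s
      rw [map_mul, su_bbs, su_tv, add_mul]
      split_ifs <;> simp
    rw [Finset.sum_congr rfl fun s _ => h1 s, Finset.sum_add_distrib, Finset.sum_ite_eq',
      if_pos (Finset.mem_univ j)]
    ring
  · simp only [aT, Fin.cons_succ]
    rw [map_sub, su_bbs]
    split_ifs
    · rw [su_AA]
      ring
    · rw [map_zero]
      ring

end

theorem nvb : T_NVB := by
  intro k _ K _ _ n q a0 j z y P
  have h : (SU a0 j z y).comp (Th a0 j) = (NN a0 j z y : _ →+* MvPolynomial (Fin n ⊕ Fin n) K) := by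
    refine MvPolynomial.ringHom_ext' ?_ ?_
    · refine MvPolynomial.ringHom_ext' ?_ ?_
      · ext c : 1
        simp only [RingHom.comp_apply, Th, NN, eval₂Hom_C, eval_C]
        rw [su_C]
        simp
      · intro is
        simp only [RingHom.comp_apply, Th, NN, eval₂Hom_C, eval₂Hom_X', eval_X]
        exact su_aT a0 j z y is.1 is.2
    · intro v
      simp only [RingHom.comp_apply, Th, NN, eval₂Hom_X']
      rcases v with s | s
      · simp only [Sum.elim_inl]
        refine Fin.cases ?_ (fun s => ?_) s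
        · simp only [xT, Fin.cons_zero]
          rw [su_C, aeval_X, Sum.elim_inl]
          simp [xx]
        · simp only [xT, Fin.cons_succ]
          rw [map_add, map_add, map_mul, map_mul, su_C, su_C, su_C, su_vv, su_tv]
          simp only [aeval_X, Sum.elim_inl]
          simp [xx]
      · simp only [Sum.elim_inr, yT]
        rw [map_add, map_mul, su_C, su_C, su_vv]
        simp only [aeval_X, Sum.elim_inr]
  exact congrFun (congrArg DFunLike.coe h) P

end Pool.Agent.H36.GH.NVB
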