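import Pool.Agent.H27.GH.Targets

/-!
Module THT (MP_70ba79_ag): the substitution `Th` maps the general hyperplane to `a0 + u`.
-/

set_option autoImplicit false

namespace Pool.Agent.H36.GH.THT

open MvPolynomial Pool.Agent.H27.GH

theorem tht : T_THT := by
  intro k _ n q a0 j i
  have hvj : (vv' j j : PR k n q) = 0 := by simp [vv']
  have hc : ∀ s, Th a0 j (C (gen k n q i s)) = aT a0 j i s := by
    intro s
    unfold Th gen
    rw [eval₂Hom_C]
    exact eval₂Hom_X' _ _ _
  have hX : ∀ s, Th a0 j (X (Sum.inl s)) = xT j s := by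
    intro s
    unfold Th
    rw [eval₂Hom_X', Sum.elim_inl]
  have hY : ∀ s, Th a0 j (X (Sum.inr s)) = yT j s := by
    intro s
    unfold Th
    rw [eval₂Hom_X', Sum.elim_inr]
  constructor
  · unfold lX
    simp only [map_sum, map_mul, hc, hX]
    rw [← Finset.sum_add_distrib]
    have h0 : ∀ s : Fin (n + 1), (C (C (a0 i s)) * C (X (Sum.inl s)) +
        X (Sum.inr (i, s)) * C (X (Sum.inl s)) : PR k n q) = bb a0 i s * C (X (Sum.inl s)) := by
      intro s
      unfold bb
      ring
    rw [Finset.sum_congr rfl fun s _ => h0 s, Fin.sum_univ_succ, Fin.sum_univ_succ]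
    simp only [aT, xT, Fin.cons_zero, Fin.cons_succ]
    have h1 : ∀ s : Fin n, (bb a0 i s.succ - if s = j then AA a0 j i else 0) *
        (C (X (Sum.inl s.succ)) + C (X (Sum.inl j.succ)) * vv' j s + C (X (Sum.inl 0)) * tv s) =
        bb a0 i s.succ * C (X (Sum.inl s.succ)) +
          (C (X (Sum.inl j.succ)) * (bb a0 i s.succ * vv' j s) +
          C (X (Sum.inl 0)) * (bb a0 i s.succ * tv s)) -
          (if s = j then AA a0 j i * (C (X (Sum.inl s.succ)) + C (X (Sum.inl j.succ)) * vv' j s +
            C (X (Sum.inl 0)) * tv s) else 0 : PR k n q) := by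
      intro s
      split_ifs <;> ring
    rw [Finset.sum_congr rfl fun s _ => h1 s, Finset.sum_sub_distrib, Finset.sum_ite_eq',
      if_pos (Finset.mem_univ j), Finset.sum_add_distrib, Finset.sum_add_distrib,
      ← Finset.mul_sum, ← Finset.mul_sum, hvj]
    have h2 : ∑ s : Fin n, bb a0 i s.succ * vv' j s = AA a0 j i := rfl
    rw [h2]
    ring
  · unfold lY
    simp only [map_sum, map_mul, hc, hY]
    rw [← Finset.sum_add_distrib]
    have h0 : ∀ s : Fin n, (C (C (a0 i s.succ)) * C (X (Sum.inr s)) +
        X (Sum.inr (i, s.succ)) * C (X (Sum.inr s)) : PR k n q) =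
        bb a0 i s.succ * C (X (Sum.inr s)) := by
      intro s
      unfold bb
      ring
    rw [Finset.sum_congr rfl fun s _ => h0 s]
    simp only [aT, yT, Fin.cons_succ]
    have h1 : ∀ s : Fin n, (bb a0 i s.succ - if s = j then AA a0 j i else 0) *
        (C (X (Sum.inr s)) + C (X (Sum.inr j)) * vv' j s) =
        bb a0 i s.succ * C (X (Sum.inr s)) + C (X (Sum.inr j)) * (bb a0 i s.succ * vv' j s) -
          (if s = j then AA a0 j i * (C (X (Sum.inr s)) + C (X (Sum.inr j)) * vv' j s)
            else 0 : PR k n q) := by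
      intro s
      split_ifs <;> ring
    rw [Finset.sum_congr rfl fun s _ => h1 s, Finset.sum_sub_distrib, Finset.sum_ite_eq',
      if_pos (Finset.mem_univ j), Finset.sum_add_distrib, ← Finset.mul_sum, hvj]
    have h2 : ∑ s : Fin n, bb a0 i s.succ * vv' j s = AA a0 j i := rfl
    rw [h2]
    ring

end Pool.Agent.H36.GH.THT
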