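import Pool.Agent.H27.GH.Targets

/-!
Modules BIC and BTH (MP_70ba79_ag): bihomogeneity of the coefficients of a substitution.
-/

set_option autoImplicit false

namespace Pool.Agent.H36.GH.BIC

open MvPolynomial Pool.Agent.H27.GH

section

variable {S : Type} [CommRing S] {n : ℕ}

theorem bih_zero (b1 b2 : ℕ) : Bih b1 b2 (0 : MvPolynomial (Vr n) S) := by
  intro m hm
  simp at hm

theorem bih_add {b1 b2 : ℕ} {P Q : MvPolynomial (Vr n) S} (hP : Bih b1 b2 P) (hQ : Bih b1 b2 Q) :
    Bih b1 b2 (P + Q) := by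
  classical
  intro m hm
  rcases Finset.mem_union.1 (support_add hm) with h | h
  · exact hP m h
  · exact hQ m h

theorem bih_neg {b1 b2 : ℕ} {P : MvPolynomial (Vr n) S} (hP : Bih b1 b2 P) : Bih b1 b2 (-P) := by
  intro m hm
  refine hP m ?_
  rw [mem_support_iff] at hm ⊢
  intro h
  apply hm
  rw [coeff_neg, h, neg_zero]

theorem bih_sum {b1 b2 : ℕ} {ι : Type} (s : Finset ι) (P : ι → MvPolynomial (Vr n) S)
    (h : ∀ i ∈ s, Bih b1 b2 (P i)) : Bih b1 b2 (∑ i ∈ s, P i) := by
  classical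
  induction s using Finset.induction_on with
  | empty => simpa using bih_zero b1 b2
  | insert a s ha ih =>
    rw [Finset.sum_insert ha]
    exact bih_add (h a (Finset.mem_insert_self _ _))
      (ih fun i hi => h i (Finset.mem_insert_of_mem hi))

theorem bih_mul {b1 b2 c1 c2 : ℕ} {P Q : MvPolynomial (Vr n) S} (hP : Bih b1 b2 P)
    (hQ : Bih c1 c2 Q) : Bih (b1 + c1) (b2 + c2) (P * Q) := by
  classical
  intro m hm
  obtain ⟨a, ha, b, hb, rfl⟩ := Finset.mem_add.1 (support_mul P Q hm)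
  have h1 := hP a ha
  have h2 := hQ b hb
  simp only [Finsupp.add_apply, Finset.sum_add_distrib]
  omega

theorem bih_C (c : S) : Bih 0 0 (C c : MvPolynomial (Vr n) S) := by
  classical
  intro m hm
  rw [mem_support_iff, coeff_C] at hm
  have : m = 0 := by
    by_contra h
    exact hm (if_neg (Ne.symm h))
  subst this
  simp

theorem bih_Xl (s : Fin (n + 1)) : Bih 1 0 (X (Sum.inl s) : MvPolynomial (Vr n) S) := by
  classical
  intro m hm
  rw [mem_support_iff, coeff_X] at hm
  have : m = Finsupp.single (Sum.inl s) 1 := by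
    by_contra h
    exact hm (if_neg (Ne.symm h))
  subst this
  constructor
  · rw [Finset.sum_eq_single s]
    · simp
    · intro b _ hb
      rw [Finsupp.single_apply, if_neg]
      intro h
      exact hb (Sum.inl_injective h).symm
    · intro h; exact absurd (Finset.mem_univ _) h
  · refine Finset.sum_eq_zero fun b _ => ?_
    rw [Finsupp.single_apply, if_neg]
    simp

theorem bih_Xr (s : Fin n) : Bih 0 1 (X (Sum.inr s) : MvPolynomial (Vr n) S) := by
  classical
  intro m hm
  rw [mem_support_iff, coeff_X] at hm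
  have : m = Finsupp.single (Sum.inr s) 1 := by
    by_contra h
    exact hm (if_neg (Ne.symm h))
  subst this
  constructor
  · refine Finset.sum_eq_zero fun b _ => ?_
    rw [Finsupp.single_apply, if_neg]
    simp
  · rw [Finset.sum_eq_single s]
    · simp
    · intro b _ hb
      rw [Finsupp.single_apply, if_neg]
      intro h
      exact hb (Sum.inr_injective h).symm
    · intro h; exact absurd (Finset.mem_univ _) h

variable {σ : Type}

theorem cbih_zero (b1 b2 : ℕ) : CBih b1 b2 (0 : MvPolynomial σ (MvPolynomial (Vr n) S)) := by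
  intro κ
  rw [coeff_zero]
  exact bih_zero _ _

theorem cbih_add {b1 b2 : ℕ} {P Q : MvPolynomial σ (MvPolynomial (Vr n) S)} (hP : CBih b1 b2 P)
    (hQ : CBih b1 b2 Q) : CBih b1 b2 (P + Q) := by
  intro κ
  rw [coeff_add]
  exact bih_add (hP κ) (hQ κ)

theorem cbih_neg {b1 b2 : ℕ} {P : MvPolynomial σ (MvPolynomial (Vr n) S)} (hP : CBih b1 b2 P) :
    CBih b1 b2 (-P) := by
  intro κ
  rw [coeff_neg]
  exact bih_neg (hP κ)

theorem cbih_sub {b1 b2 : ℕ} {P Q : MvPolynomial σ (MvPolynomial (Vr n) S)} (hP : CBih b1 b2 P)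
    (hQ : CBih b1 b2 Q) : CBih b1 b2 (P - Q) := by
  rw [sub_eq_add_neg]
  exact cbih_add hP (cbih_neg hQ)

theorem cbih_sum {b1 b2 : ℕ} {ι : Type} (s : Finset ι)
    (P : ι → MvPolynomial σ (MvPolynomial (Vr n) S))
    (h : ∀ i ∈ s, CBih b1 b2 (P i)) : CBih b1 b2 (∑ i ∈ s, P i) := by
  intro κ
  rw [coeff_sum]
  exact bih_sum s _ fun i hi => h i hi κ

theorem cbih_mul {b1 b2 c1 c2 : ℕ} {P Q : MvPolynomial σ (MvPolynomial (Vr n) S)}
    (hP : CBih b1 b2 P) (hQ : CBih c1 c2 Q) : CBih (b1 + c1) (b2 + c2) (P * Q) := by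
  classical
  intro κ
  rw [coeff_mul]
  exact bih_sum _ _ fun x _ => bih_mul (hP x.1) (hQ x.2)

theorem cbih_C {b1 b2 : ℕ} {c : MvPolynomial (Vr n) S} (hc : Bih b1 b2 c) :
    CBih b1 b2 (C c : MvPolynomial σ (MvPolynomial (Vr n) S)) := by
  classical
  intro κ
  rw [coeff_C]
  split_ifs
  · exact hc
  · exact bih_zero _ _

theorem cbih_one : CBih 0 0 (1 : MvPolynomial σ (MvPolynomial (Vr n) S)) := by
  rw [← C_1]
  refine cbih_C ?_
  rw [← C_1]
  exact bih_C 1

theorem cbih_X (x : σ) : CBih 0 0 (X x : MvPolynomial σ (MvPolynomial (Vr n) S)) := by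
  classical
  intro κ
  rw [coeff_X]
  split_ifs
  · rw [← C_1]
    exact bih_C 1
  · exact bih_zero _ _

theorem cbih_pow {b1 b2 : ℕ} {P : MvPolynomial σ (MvPolynomial (Vr n) S)} (hP : CBih b1 b2 P)
    (m : ℕ) : CBih (m * b1) (m * b2) (P ^ m) := by
  induction m with
  | zero =>
    rw [pow_zero, Nat.zero_mul, Nat.zero_mul]
    exact cbih_one
  | succ m ih =>
    rw [pow_succ, Nat.succ_mul, Nat.succ_mul]
    exact cbih_mul ih hP

theorem cbih_prod {ι : Type} (s : Finset ι) (a b : ι → ℕ)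
    (P : ι → MvPolynomial σ (MvPolynomial (Vr n) S))
    (h : ∀ i ∈ s, CBih (a i) (b i) (P i)) : CBih (∑ i ∈ s, a i) (∑ i ∈ s, b i) (∏ i ∈ s, P i) := by
  classical
  induction s using Finset.induction_on with
  | empty => simpa using cbih_one
  | insert x s hx ih =>
    rw [Finset.sum_insert hx, Finset.sum_insert hx, Finset.prod_insert hx]
    exact cbih_mul (h x (Finset.mem_insert_self _ _))
      (ih fun i hi => h i (Finset.mem_insert_of_mem hi))

end

theorem bic : T_BIC := by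
  intro R S _ _ n σ Φ h0 hX hY b1 b2 P hP
  have h1 : Φ P = ∑ m ∈ P.support, Φ (C (coeff m P)) *
      ((∏ s, Φ (X (Sum.inl s)) ^ m (Sum.inl s)) * ∏ s, Φ (X (Sum.inr s)) ^ m (Sum.inr s)) := by
    conv_lhs => rw [P.as_sum]
    rw [map_sum]
    refine Finset.sum_congr rfl fun m _ => ?_
    rw [monomial_eq, map_mul, Finsupp.prod_fintype _ _ (fun i => pow_zero _), map_prod,
      Fintype.prod_sum_type]
    simp only [map_pow]
  rw [h1]
  refine cbih_sum _ _ fun m hm => ?_
  obtain ⟨e1, e2⟩ := hP m hm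
  have h2 : CBih (∑ s, m (Sum.inl s)) (∑ _s : Fin (n + 1), 0)
      (∏ s, Φ (X (Sum.inl s)) ^ m (Sum.inl s)) := by
    refine cbih_prod _ _ _ _ fun s _ => ?_
    have := cbih_pow (hX s) (m (Sum.inl s))
    simpa using this
  have h3 : CBih (∑ _s : Fin n, 0) (∑ s, m (Sum.inr s))
      (∏ s, Φ (X (Sum.inr s)) ^ m (Sum.inr s)) := by
    refine cbih_prod _ _ _ _ fun s _ => ?_
    have := cbih_pow (hY s) (m (Sum.inr s))
    simpa using this
  have h4 := cbih_mul (h0 (coeff m P)) (cbih_mul h2 h3)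
  simpa [e1, e2] using h4

end Pool.Agent.H36.GH.BIC
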