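import Pool.Agent.H36.GH.BIC

/-!
Module BTH (MP_70ba79_ag): the coefficients of `Th P` are bihomogeneous.
-/

set_option autoImplicit false

namespace Pool.Agent.H36.GH.BTH

open MvPolynomial Pool.Agent.H27.GH Pool.Agent.H36.GH.BIC

section

variable {k : Type} [Field k] {n q : ℕ} (a0 : Fin q → Fin (n + 1) → k) (j : Fin n)

theorem c_tv (s : Fin n) : CBih 0 0 (tv s : PR k n q) := cbih_X _

theorem c_vv (s : Fin n) : CBih 0 0 (vv' j s : PR k n q) := by
  unfold vv'
  split_ifs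
  · exact cbih_zero 0 0
  · exact cbih_X _

theorem c_bb (i : Fin q) (s : Fin (n + 1)) : CBih 0 0 (bb a0 i s) :=
  cbih_add (cbih_C (bih_C _)) (cbih_X _)

theorem c_mul {P Q : PR k n q} (hP : CBih 0 0 P) (hQ : CBih 0 0 Q) : CBih 0 0 (P * Q) :=
  cbih_mul hP hQ

theorem c_AA (i : Fin q) : CBih 0 0 (AA a0 j i) :=
  cbih_sum _ _ fun r _ => c_mul (c_bb a0 i _) (c_vv j r)

theorem c_aT (i : Fin q) (s : Fin (n + 1)) : CBih 0 0 (aT a0 j i s) := by
  refine Fin.cases ?_ (fun s => ?_) s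
  · simp only [aT, Fin.cons_zero]
    exact cbih_add (cbih_sub (c_bb a0 i 0) (cbih_sum _ _ fun s _ => c_mul (c_bb a0 i _) (c_tv s)))
      (c_mul (c_tv j) (c_AA a0 j i))
  · simp only [aT, Fin.cons_succ]
    refine cbih_sub (c_bb a0 i _) ?_
    split_ifs
    · exact c_AA a0 j i
    · exact cbih_zero 0 0

theorem c_eval (r : MvPolynomial (Fin q × Fin (n + 1)) k) :
    CBih 0 0 (eval₂Hom (C.comp C) (fun is => aT a0 j is.1 is.2) r : PR k n q) := by
  induction r using MvPolynomial.induction_on with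
  | C c =>
    rw [eval₂Hom_C]
    exact cbih_C (bih_C _)
  | add p q hp hq =>
    rw [map_add]
    exact cbih_add hp hq
  | mul_X p x hp =>
    rw [map_mul, eval₂Hom_X']
    exact c_mul hp (c_aT a0 j _ _)

theorem c_xT (s : Fin (n + 1)) : CBih 1 0 (xT j s : PR k n q) := by
  refine Fin.cases ?_ (fun s => ?_) s
  · simp only [xT, Fin.cons_zero]
    exact cbih_C (bih_Xl _)
  · simp only [xT, Fin.cons_succ]
    exact cbih_add (cbih_add (cbih_C (bih_Xl _)) (cbih_mul (cbih_C (bih_Xl _)) (c_vv j s)))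
      (cbih_mul (cbih_C (bih_Xl _)) (c_tv s))

theorem c_yT (s : Fin n) : CBih 0 1 (yT j s : PR k n q) := by
  unfold yT
  exact cbih_add (cbih_C (bih_Xr _)) (cbih_mul (cbih_C (bih_Xr _)) (c_vv j s))

end

theorem bth (h1 : T_BIC) : T_BTH := by
  intro k _ n q a0 j b1 b2 P hP
  refine h1 _ _ n _ (Th a0 j) ?_ ?_ ?_ b1 b2 P hP
  · intro r
    unfold Th
    rw [eval₂Hom_C]
    exact c_eval a0 j r
  · intro s
    unfold Th
    rw [eval₂Hom_X']
    exact c_xT j s
  · intro s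
    unfold Th
    rw [eval₂Hom_X']
    exact c_yT j s

end Pool.Agent.H36.GH.BTH
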